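import Pool.Agent.H18.CGR.Stmts

/-!
Row MCZ of the board `cgr`: the joint law of `y, S`.
-/

set_option autoImplicit false

noncomputable section

namespace Pool.CGR

theorem mcz_rot {α : Type} {φ : List α → ℂ} (h : ∀ (i : α) (w : List α), φ (i :: w) = φ (w ++ [i]))
    (u v : List α) : φ (u ++ v) = φ (v ++ u) := by
  induction u generalizing v with
  | nil => simp
  | cons a u ih =>
    rw [List.cons_append, h, List.append_assoc, ih]
    simp

theorem mcz_all {m : ℕ} (w : List (Fin m ⊕ Fin m)) :
    (∃ w' : List (Fin m), w = w'.map Sum.inl) ∨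
      ∃ (u v : List (Fin m ⊕ Fin m)) (i : Fin m), w = u ++ Sum.inr i :: v := by
  induction w with
  | nil => exact Or.inl ⟨[], rfl⟩
  | cons a w ih =>
    rcases a with j | i
    · rcases ih with ⟨w', rfl⟩ | ⟨u, v, i, rfl⟩
      · exact Or.inl ⟨j :: w', rfl⟩
      · exact Or.inr ⟨Sum.inl j :: u, v, i, rfl⟩
    · exact Or.inr ⟨[], w, i, rfl⟩

theorem mcz_thm (yrs : YRSStmt) (cyz : CYZStmt) (tra : TRAStmt) (con : CONStmt)
    (tco : TCOStmt) : MCZStmt := by
  intro m A _ τ hτ y S hS k hk hy w
  have rotφ : ∀ (i : Fin m ⊕ Fin m) (w : List (Fin m ⊕ Fin m)),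
      τ (ev (Sum.elim y S) (i :: w)) = τ (ev (Sum.elim y S) (w ++ [i])) := by
    intro i w
    simp only [ev, List.map_cons, List.prod_cons, List.map_append, List.prod_append,
      List.map_nil, List.prod_nil, mul_one]
    exact hτ.comm _ _
  have rotψ : ∀ (i : Fin m ⊕ Fin m) (w : List (Fin m ⊕ Fin m)),
      nn (kz k) (i :: w) [] = nn (kz k) (w ++ [i]) [] := tra _ (kz k) (cyz m k hk)
  induction hn : w.length using Nat.strong_induction_on generalizing w with
  | _ n ih =>
    rcases mcz_all w with ⟨w', rfl⟩ | ⟨u, v, i, rfl⟩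
    · have e1 : ev (Sum.elim y S) (w'.map Sum.inl) = ev y w' := by
        simp [ev, List.map_map, Function.comp_def]
      rw [e1, hy, yrs]
      have e2 : (List.map Sum.inl [] : List (Fin m ⊕ Fin m)) = [] := rfl
      rw [← e2, Finsupp.mapDomain_apply (List.map_injective_iff.2 Sum.inl_injective)]
    · have e1 := mcz_rot (φ := fun w => τ (ev (Sum.elim y S) w)) rotφ u (Sum.inr i :: v)
      have e2 := mcz_rot (φ := fun w => nn (kz k) w []) rotψ u (Sum.inr i :: v)
      rw [e1, e2, List.cons_append]
      generalize hw0 : v ++ u = w0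
      have hlen : w0.length < n := by
        rw [← hn, ← hw0]
        simp only [List.length_append, List.length_cons]
        omega
      have e3 : τ (ev (Sum.elim y S) (Sum.inr i :: w0)) = τ (S i * ev (Sum.elim y S) w0) := by
        simp [ev]
      rw [e3, hS i w0, rotψ, nn_append, tco]
      have e4 : ∑' z : List (Fin m ⊕ Fin m), kz k (Sum.inr i) z * nn (kz k) w0 (z ++ []) =
          nn (kz k) w0 ([] ++ Sum.inr i :: []) := by
        rw [tsum_eq_single [Sum.inr i]]
        · simp [kz]
        · intro z hz
          simp [kz, hz]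
      rw [e4, con]
      simp only [hd, zero_add, dq]
      refine Finset.sum_congr rfl fun q hq => ?_
      have hq' := Finset.mem_range.1 hq
      split_ifs
      · rw [ih _ (by rw [List.length_take]; omega) (w0.take q) rfl,
          ih _ (by rw [List.length_drop]; omega) (w0.drop (q + 1)) rfl]
      · rfl

end Pool.CGR
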